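import Pool.Agent.H1.CM.Targets2
import Pool.Agent.H1.CM.SBasic

/-!
# Module SMO: the special fibre is smooth of relative dimension 2
-/

open CategoryTheory AlgebraicGeometry Limits

namespace Pool.Agent.H1.CM

theorem smo_locally (h1 : T_JAC) (h2 : T_PRES) (h3 : T_SMOA) {k : Type} [Field k] (hk : (2 : k) = 0)
    {X₀ : Scheme.{0}} (s₀ : X₀ ⟶ Spec (CommRingCat.of k)) (S : StdOver s₀ (std (0 : k))) (r : Fin 3) :
    RingHom.Locally (RingHom.IsStandardSmoothOfRelativeDimension 2) (scal s₀ (S.V {r})) := by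
  have hne : ({r} : Finset (Fin 3)).Nonempty := Finset.singleton_nonempty r
  have hle := S.le {r} hne
  have hinj := S.inj {r} hne
  obtain ⟨hmem, hker⟩ := h2 (scal s₀ (S.V Finset.univ)) S.q (BX X₀ S.V) hk S.frame S.rel r
  -- the coordinates
  have hT : ∀ i : Fin 4, ∃ b : Γ(X₀, S.V {r}), rs X₀ hle b = S.q.chart r i := by
    intro i
    have : S.q.chart r i ∈ BX X₀ S.V {r} := (hmem _).2 ⟨MvPolynomial.X i, by simp⟩
    exact (mem_BX S.V {r} hle _).1 this
  choose T hT using hT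
  have hev : ∀ p : MvPolynomial (Fin 4) k, rs X₀ hle (MvPolynomial.eval₂ (scal s₀ (S.V {r})) T p)
      = MvPolynomial.eval₂ (scal s₀ (S.V Finset.univ)) (S.q.chart r) p := by
    intro p
    rw [MvPolynomial.hom_eval₂]
    congr 1
    · ext a
      exact rs_scal s₀ hle a
    · funext i
      exact hT i
  have hz : ∀ p : MvPolynomial (Fin 4) k, MvPolynomial.eval₂ (scal s₀ (S.V {r})) T p = 0 ↔
      p ∈ Ideal.span {G1 k r, G2 k r} := by
    intro p
    rw [← hker p, ← hev p]
    constructor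
    · intro h
      rw [h, map_zero]
    · intro h
      exact hinj (by rw [h, map_zero])
  have hJ := h1 (scal s₀ (S.V {r})) hk r T ((hz _).2 (Ideal.subset_span (by simp)))
    ((hz _).2 (Ideal.subset_span (by simp)))
  let _ : Algebra k Γ(X₀, S.V {r}) := (scal s₀ (S.V {r})).toAlgebra
  have hae : ∀ p : MvPolynomial (Fin 4) k, MvPolynomial.aeval T p
      = MvPolynomial.eval₂ (scal s₀ (S.V {r})) T p := fun p => rfl
  have := h3 (k := k) (R := Γ(X₀, S.V {r})) (G1 k r) (G2 k r) T ?_ ?_ ?_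
  · exact this
  · intro c
    have : rs X₀ hle c ∈ BX X₀ S.V {r} := (mem_BX S.V {r} hle _).2 ⟨c, rfl⟩
    obtain ⟨p, hp⟩ := (hmem _).1 this
    refine ⟨p, ?_⟩
    rw [hae]
    exact hinj (by rw [hev p, ← hp])
  · intro p
    rw [hae]
    exact hz p
  · exact hJ

theorem smo (h1 : T_JAC) (h2 : T_PRES) (h3 : T_SMOA) : T_SMO := by
  intro k _ hk X₀ s₀ S
  have hcov : ⨆ r : Fin 3, ((⟨S.V {r}, S.affine _ (Finset.singleton_nonempty r)⟩ : X₀.affineOpens) :
      X₀.Opens) = ⊤ := S.cover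
  refine HasRingHomProperty.of_iSup_eq_top (P := @SmoothOfRelativeDimension 2)
    (Q := RingHom.Locally (RingHom.IsStandardSmoothOfRelativeDimension 2))
    (fun r : Fin 3 => ⟨S.V {r}, S.affine _ (Finset.singleton_nonempty r)⟩) hcov ?_
  intro r
  have key := smo_locally h1 h2 h3 hk s₀ S r
  have hR : RingHom.RespectsIso (RingHom.Locally (RingHom.IsStandardSmoothOfRelativeDimension 2)) :=
    (HasRingHomProperty.isLocal_ringHomProperty (@SmoothOfRelativeDimension 2)).respectsIso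
  have h4 := hR.cancel_left_isIso (Scheme.ΓSpecIso (CommRingCat.of k)).inv
    (s₀.appLE ⊤ (S.V {r}) le_top)
  rw [← h4]
  exact key

end Pool.Agent.H1.CM
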