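import Pool.Agent.H57.CM.Targets

/-!
# Row RZM of the board chm_modules: relative local completions of Urysohn spaces

The prescribed distances of labelled pairs and the idempotents of the levels of the other pairs are
the weights of links; the metric of the shortest paths has the prescribed levels, and it agrees with
the prescribed distances, because short paths are controlled by the local maps.
-/

set_option autoImplicit false

namespace Pool.Agent.H75.CM

open Pool.Agent.H68.BP Pool.Agent.H58.SF Pool.Agent.H53.NR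
open Pool.Agent.H57.AR (tp ty Ty)
open Pool.Agent.H57.LH (Hmg)
open Pool.Agent.H72.CH Pool.Agent.H57.CM
open Function

section

variable {D : Type} [LinearOrder D] [AddCommMonoid D] [DM D]

theorem dm_add_le {a b c e : D} (h1 : a ≤ b) (h2 : c ≤ e) : a + c ≤ b + e := by
  have h3 := DM.mono a b c h1
  have h4 := DM.mono c e b h2
  rw [add_comm c b, add_comm e b] at h4
  exact h3.trans h4

theorem dm_le_left {a b c : D} (h : a + b ≤ c) : a ≤ c := by
  have h1 := DM.mono 0 b a (DM.zero_le b)
  rw [zero_add, add_comm b a] at h1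
  exact h1.trans h

theorem dm_le_right {a b c : D} (h : a + b ≤ c) : b ≤ c := by
  rw [add_comm] at h
  exact dm_le_left h

theorem ni_le_zero (hI : T_IDM) (a : D) : ni a - 1 ≤ nl D := by
  have h1 := (hI D).2.1 0 a (DM.zero_le a)
  unfold nl
  omega

/-- Links of a path of small length have high level. -/
theorem lev_of_len {X : Type} {w : X → X → D} {lam : X → X → ℕ} {s : D} {j : ℕ}
    (hl : PLev (nl D) lam) (hj : j ≤ nl D) (hw : ∀ x y, w x y ≤ s → j ≤ lam x y) :
    ∀ (l : List X) (x y : X), (x :: l).getLast? = some y → len w x l ≤ s → j ≤ lam x y := by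
  intro l
  induction l with
  | nil =>
    intro x y hy _
    rw [List.getLast?_singleton] at hy
    obtain rfl := Option.some.inj hy
    rw [hl.self]
    exact hj
  | cons u l ih =>
    intro x y hy hs
    rw [List.getLast?_cons_cons] at hy
    have hs' : w x u + len w u l ≤ s := hs
    have h1 := hw x u (dm_le_left hs')
    have h2 := ih u y hy (dm_le_right hs')
    exact (le_min h1 h2).trans (hl.ult x u y)

/-- The sets of vertices and labels of a path control its length. -/
theorem path_data {X V Λ : Type} {r : ℕ} {w : X → X → D} {lam : X → X → ℕ} {d : V → V → D}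
    (z : Λ → Fin r → X) (y : Λ → Fin r → V) (hd : IsM d)
    (hun : ∀ x x', (¬ ∃ a i j, z a i = x ∧ z a j = x') → ∀ v v' : V,
      lam x x' ≤ ml d v v' → d v v' ≤ w x x')
    (hla : ∀ a i j, d (y a i) (y a j) ≤ w (z a i) (z a j)) :
    ∀ (l : List X) (x : X), ∃ (U : Finset X) (L : Finset Λ), U.card ≤ l.length + 1 ∧
      L.card ≤ l.length ∧ x ∈ U ∧ ∀ f : X → V,
        (∀ u ∈ U, ∀ u' ∈ U, lam u u' ≤ ml d (f u) (f u')) →
        (∀ b ∈ L, ∀ i j, d (f (z b i)) (f (z b j)) = d (y b i) (y b j)) →
        ∀ x', (x :: l).getLast? = some x' → d (f x) (f x') ≤ len w x l := by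
  classical
  intro l
  induction l with
  | nil =>
    intro x
    refine ⟨{x}, ∅, by simp, by simp, by simp, ?_⟩
    intro f _ _ x' hx'
    rw [List.getLast?_singleton] at hx'
    obtain rfl := Option.some.inj hx'
    rw [(hd.eq _ _).2 rfl]
    exact DM.zero_le _
  | cons u l ih =>
    intro x
    obtain ⟨U, L, hU, hL, hu, hf⟩ := ih u
    by_cases hlab : ∃ a i j, z a i = x ∧ z a j = u
    · obtain ⟨a, i, j, hi, hj⟩ := hlab
      refine ⟨insert x U, insert a L, (Finset.card_insert_le _ _).trans (by simpa using hU),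
        (Finset.card_insert_le _ _).trans (by simpa using hL), Finset.mem_insert_self _ _, ?_⟩
      intro f h1 h2 x' hx'
      rw [List.getLast?_cons_cons] at hx'
      have h3 := hf f (fun v hv v' hv' => h1 v (Finset.mem_insert_of_mem hv) v'
        (Finset.mem_insert_of_mem hv')) (fun b hb => h2 b (Finset.mem_insert_of_mem hb)) x' hx'
      have h4 := h2 a (Finset.mem_insert_self _ _) i j
      have h5 := hla a i j
      rw [hi, hj] at h4 h5
      rw [← h4] at h5
      exact (hd.tri (f x) (f u) (f x')).trans (dm_add_le h5 h3)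
    · refine ⟨insert x U, L, (Finset.card_insert_le _ _).trans (by simpa using hU),
        hL.trans (by simp), Finset.mem_insert_self _ _, ?_⟩
      intro f h1 h2 x' hx'
      rw [List.getLast?_cons_cons] at hx'
      have h3 := hf f (fun v hv v' hv' => h1 v (Finset.mem_insert_of_mem hv) v'
        (Finset.mem_insert_of_mem hv')) h2 x' hx'
      have h5 := hun x u hlab (f x) (f u) (h1 x (Finset.mem_insert_self _ _) u
        (Finset.mem_insert_of_mem hu))
      exact (hd.tri (f x) (f u) (f x')).trans (dm_add_le h5 h3)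

end

/-- Row RZM. -/
theorem pf_RZM : T_IDM → T_PLV → T_SHO → T_SPM → T_ISO → T_TPM → T_RZM := by
  classical
  intro hI _ hSHO hSPM hISO hTPM D V _ _ _ _ d hU r
  obtain ⟨-, -, s, s1, s2, s3, -, -, s6⟩ := hI D
  refine ⟨2 * Nat.card D + 4, ?_⟩
  intro X Λ _ lam z y hlam hyz hloc
  have hd := hU.met
  have htp := fun (J : Type) => (hTPM D V J d hd).1
  -- levels and idempotents
  have hanti : ∀ i j, i ≤ j → j ≤ nl D → s j ≤ s i := by
    intro i j hij hj
    rw [s2 i (hij.trans hj), s3 j hj]
    omega
  -- the weights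
  have hex : ∀ x x' : X, ∃ c : D, (∀ a i j, z a i = x → z a j = x' → d (y a i) (y a j) = c) ∧
      ((¬ ∃ a i j, z a i = x ∧ z a j = x') → c = s (lam x x')) := by
    intro x x'
    by_cases h : ∃ a i j, z a i = x ∧ z a j = x'
    · obtain ⟨a, i, j, hi, hj⟩ := h
      refine ⟨d (y a i) (y a j), ?_, fun h => absurd ⟨a, i, j, hi, hj⟩ h⟩
      intro b i' j' hi' hj'
      obtain ⟨f, -, hf⟩ := hloc ∅ {a, b} (by simp)
        ((Finset.card_insert_le _ _).trans (by simp))
      have ha := (htp (Fin r) _ _).1 (hf a (by simp)) i j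
      have hb := (htp (Fin r) _ _).1 (hf b (by simp)) i' j'
      rw [hi, hj] at ha
      rw [hi', hj'] at hb
      rw [← ha, ← hb]
    · exact ⟨s (lam x x'), fun a i j hi hj => absurd ⟨a, i, j, hi, hj⟩ h, fun _ => rfl⟩
  choose w hw1 hw2 using hex
  have hwl : ∀ a i j, w (z a i) (z a j) = d (y a i) (y a j) :=
    fun a i j => (hw1 _ _ a i j rfl rfl).symm
  have hwsym : ∀ x x', w x x' = w x' x := by
    intro x x'
    by_cases h : ∃ a i j, z a i = x ∧ z a j = x'
    · obtain ⟨a, i, j, rfl, rfl⟩ := h
      rw [hwl, hwl, hd.sym]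
    · have h' : ¬ ∃ a i j, z a i = x' ∧ z a j = x := by
        rintro ⟨a, i, j, hi, hj⟩
        exact h ⟨a, j, i, hj, hi⟩
      rw [hw2 x x' h, hw2 x' x h', hlam.sym]
  have hK : ∀ j ≤ nl D, ∀ x x', w x x' ≤ s j ↔ j ≤ lam x x' := by
    intro j hj x x'
    by_cases h : ∃ a i j, z a i = x ∧ z a j = x'
    · obtain ⟨a, i, i', rfl, rfl⟩ := h
      rw [hwl, s2 j hj, ← hyz]
      rfl
    · rw [hw2 x x' h, s2 j hj, s3 _ (hlam.le x x')]
      simp
  have hws : ∀ x x', w x x' ≤ s (lam x x') := fun x x' => (hK _ (hlam.le x x') x x').2 le_rfl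
  obtain ⟨d', hd', hd'w, hpath⟩ := hSPM D X w hwsym
  -- the levels of the metric of the shortest paths
  have hlev : ∀ x x', ni (d' x x') - 1 = lam x x' := by
    intro x x'
    apply le_antisymm
    · have hj := ni_le_zero hI (d' x x')
      obtain ⟨l, hl1, hl2⟩ := hpath x x'
      have h1 : d' x x' ≤ s (ni (d' x x') - 1) := (s2 _ hj _).2 le_rfl
      rw [hl2] at h1
      rw [hl2] at hj ⊢
      exact lev_of_len hlam hj (fun u u' h => (hK _ hj u u').1 h) l x x' hl1 h1
    · exact (s2 _ (hlam.le x x') _).1 ((hd'w x x').trans (hws x x'))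
  -- the labelled pairs
  have hlab : ∀ a i j, d' (z a i) (z a j) = d (y a i) (y a j) := by
    intro a i j
    apply le_antisymm
    · rw [← hwl a i j]
      exact hd'w _ _
    · obtain ⟨l, hl1, hl2⟩ := hpath (z a i) (z a j)
      obtain ⟨l', hl'1, hl'2, hl'3⟩ := hSHO D X w lam s hlam s1 hanti hws
        (fun j hj x x' h => (hK j hj x x').1 h) s6 (z a i) l
      rw [hl1] at hl'2
      obtain ⟨U, L, hUc, hLc, -, hf⟩ := path_data z y hd (w := w) (lam := lam)
        (fun x x' h v v' hv => by
          rw [hw2 x x' h, s2 _ (hlam.le x x')]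
          exact hv) (fun a i j => (hwl a i j).ge) l' (z a i)
      obtain ⟨f, hf1, hf2⟩ := hloc U (insert a L) (by omega)
        ((Finset.card_insert_le _ _).trans (by omega))
      have h1 := hf f hf1 (fun b hb => (htp (Fin r) _ _).1
        (hf2 b (Finset.mem_insert_of_mem hb))) (z a j) hl'2
      have h2 := (htp (Fin r) _ _).1 (hf2 a (Finset.mem_insert_self _ _)) i j
      rw [hl2, ← h2]
      exact h1.trans hl'3
  obtain ⟨f, hf, -⟩ := hISO D V d hU X d' hd' ∅ (fun _ => Classical.choice hU.ne)
    (fun a ha => absurd ha (Set.notMem_empty a))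
  refine ⟨f, fun x x' => ?_, fun a => ?_⟩
  · unfold ml
    rw [hf]
    exact hlev x x'
  · rw [htp]
    intro i j
    rw [hf, hlab]

end Pool.Agent.H75.CM
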