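import Pool.Agent.H57.CM.Targets
import Pool.Agent.H75.CM.RZM

/-!
# Row EUR of the board chm_modules: Urysohn spaces exist

Direct construction on the natural numbers: the point `j` is added to the points below `j`, with
distances which solve the requirement number `j`.
-/

set_option autoImplicit false

namespace Pool.Agent.H75.CM

open Pool.Agent.H57.CM
open Function

section

variable {D : Type} [LinearOrder D] [AddCommMonoid D] [DM D]

theorem dm_le_add_right (a b : D) : a ≤ a + b := by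
  have h := dm_add_le (le_refl a) (DM.zero_le b)
  rwa [add_zero] at h

theorem dm_pos_add {a : D} (b : D) (h : a ≠ 0) : a + b ≠ 0 := by
  intro h0
  have h1 := dm_le_add_right a b
  rw [h0] at h1
  exact h (le_antisymm h1 (DM.zero_le a))

/-- `e` is a metric on the numbers below `j`. -/
structure IsMOn (j : ℕ) (e : ℕ → ℕ → D) : Prop where
  eq : ∀ x < j, ∀ y < j, e x y = 0 ↔ x = y
  sym : ∀ x < j, ∀ y < j, e x y = e y x
  tri : ∀ x < j, ∀ y < j, ∀ z < j, e x z ≤ e x y + e y z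

/-- the function `g` describes a new point -/
structure Kat (j : ℕ) (e : ℕ → ℕ → D) (g : ℕ → D) : Prop where
  ne : ∀ x < j, g x ≠ 0
  le : ∀ x < j, ∀ y < j, g x ≤ g y + e x y
  ge : ∀ x < j, ∀ y < j, e x y ≤ g x + g y

/-- extension of the description of a new point -/
theorem exists_kat (hD : ∃ a : D, a ≠ 0) {j : ℕ} {e : ℕ → ℕ → D} (he : IsMOn j e) (F : Finset ℕ)
    (f : ℕ → D) (hF : ∀ x ∈ F, x < j) (hf0 : ∀ x ∈ F, f x ≠ 0)
    (hf : ∀ x ∈ F, ∀ y ∈ F, f x ≤ f y + e x y ∧ e x y ≤ f x + f y) :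
    ∃ g : ℕ → D, Kat j e g ∧ ∀ x ∈ F, g x = f x := by
  rcases F.eq_empty_or_nonempty with rfl | hne
  · have hfin : Finite D := DM.fin
    obtain ⟨a, ha⟩ := hD
    obtain ⟨M, hM⟩ := Finite.exists_max (id : D → D)
    have hM' : ∀ b : D, b ≤ M := hM
    have hM0 : M ≠ 0 := by
      intro h
      exact ha (le_antisymm (h ▸ hM' a) (DM.zero_le a))
    exact ⟨fun _ => M, ⟨fun _ _ => hM0, fun _ _ _ _ => dm_le_add_right _ _,
      fun x _ y _ => (hM' _).trans (dm_le_add_right _ _)⟩, by simp⟩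
  · refine ⟨fun x => F.inf' hne (fun c => f c + e c x), ⟨?_, ?_, ?_⟩, ?_⟩
    · intro x _
      obtain ⟨c, hc, h1⟩ := F.exists_mem_eq_inf' hne (fun c => f c + e c x)
      rw [h1]
      exact dm_pos_add _ (hf0 c hc)
    · intro x hx y hy
      obtain ⟨c, hc, h1⟩ := F.exists_mem_eq_inf' hne (fun c => f c + e c y)
      rw [h1, add_assoc, he.sym x hx y hy]
      exact (F.inf'_le _ hc).trans (dm_add_le le_rfl (he.tri c (hF c hc) y hy x hx))
    · intro x hx y hy
      obtain ⟨c, hc, h1⟩ := F.exists_mem_eq_inf' hne (fun c => f c + e c x)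
      obtain ⟨c', hc', h2⟩ := F.exists_mem_eq_inf' hne (fun c => f c + e c y)
      rw [h1, h2]
      have h3 := he.tri x hx c (hF c hc) y hy
      have h4 := he.tri c (hF c hc) c' (hF c' hc') y hy
      have h5 := (hf c hc c' hc').2
      calc e x y ≤ e x c + e c y := h3
        _ ≤ e x c + (e c c' + e c' y) := dm_add_le le_rfl h4
        _ ≤ e c x + ((f c + f c') + e c' y) :=
          dm_add_le (he.sym x hx c (hF c hc)).le (dm_add_le h5 le_rfl)
        _ = f c + e c x + (f c' + e c' y) := by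
          rw [add_assoc, add_comm (e c x), add_assoc, add_assoc, add_assoc]
          congr 1
          rw [← add_assoc, add_comm]
    · intro x hx
      apply le_antisymm
      · refine (F.inf'_le _ hx).trans ?_
        rw [(he.eq x (hF x hx) x (hF x hx)).2 rfl, add_zero]
      · refine F.le_inf' hne _ fun c hc => ?_
        have h1 := (hf x hx c hc).1
        rwa [he.sym x (hF x hx) c (hF c hc)] at h1

/-- The metric with the new point `j`. -/
theorem exists_step {j : ℕ} {e : ℕ → ℕ → D} (he : IsMOn j e) {g : ℕ → D} (hg : Kat j e g) :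
    ∃ e' : ℕ → ℕ → D, IsMOn (j + 1) e' ∧ (∀ x < j, ∀ y < j, e' x y = e x y) ∧
      ∀ x < j, e' j x = g x := by
  classical
  have key : ∀ x < j + 1, x = j ∨ (x < j ∧ x ≠ j) := by
    intro x hx
    omega
  refine ⟨fun x y => if x = j then (if y = j then 0 else g y) else if y = j then g x else e x y,
    ⟨?_, ?_, ?_⟩, ?_, ?_⟩
  · intro x hx y hy
    rcases key x hx with rfl | ⟨hx1, hx2⟩ <;> rcases key y hy with rfl | ⟨hy1, hy2⟩
    · simp
    · simp [hy2, hg.ne y hy1, hy2.symm]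
    · simp [hx2, hg.ne x hx1]
    · simp [hx2, hy2, he.eq x hx1 y hy1]
  · intro x hx y hy
    rcases key x hx with rfl | ⟨hx1, hx2⟩ <;> rcases key y hy with rfl | ⟨hy1, hy2⟩
    · simp
    · simp [hy2]
    · simp [hx2]
    · simp [hx2, hy2, he.sym x hx1 y hy1]
  · intro x hx y hy z hz
    rcases key x hx with rfl | ⟨hx1, hx2⟩ <;> rcases key y hy with rfl | ⟨hy1, hy2⟩ <;>
      rcases key z hz with rfl | ⟨hz1, hz2⟩
    · simp
    · simp [hz2]
    · simp only [if_true, if_neg hy2]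
      exact DM.zero_le _
    · simp only [if_true, if_neg hy2, if_neg hz2]
      have h1 := hg.le z hz1 y hy1
      rwa [he.sym z hz1 y hy1] at h1
    · simp [hx2]
    · simp only [if_true, if_neg hx2, if_neg hz2]
      exact hg.ge x hx1 z hz1
    · simp only [if_true, if_neg hx2, if_neg hy2]
      have h1 := hg.le x hx1 y hy1
      rwa [add_comm] at h1
    · simp only [if_neg hx2, if_neg hy2, if_neg hz2]
      exact he.tri x hx1 y hy1 z hz1
  · intro x hx y hy
    simp [hx.ne, hy.ne]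
  · intro x hx
    simp [hx.ne]

/-- One step of the construction, with the requirement `q`. -/
theorem exists_req (hD : ∃ a : D, a ≠ 0) {j : ℕ} {e : ℕ → ℕ → D} (he : IsMOn j e)
    (q : Set (ℕ × D)) :
    ∃ e' : ℕ → ℕ → D, IsMOn (j + 1) e' ∧ (∀ x < j, ∀ y < j, e' x y = e x y) ∧
      ∀ (F : Finset ℕ) (f : ℕ → D), (∀ p, p ∈ q ↔ p.1 ∈ F ∧ p.2 = f p.1) →
        (∀ x ∈ F, x < j) → (∀ x ∈ F, f x ≠ 0) →
        (∀ x ∈ F, ∀ y ∈ F, f x ≤ f y + e x y ∧ e x y ≤ f x + f y) → ∀ x ∈ F, e' j x = f x := by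
  by_cases hv : ∃ (F : Finset ℕ) (f : ℕ → D), (∀ p, p ∈ q ↔ p.1 ∈ F ∧ p.2 = f p.1) ∧
      (∀ x ∈ F, x < j) ∧ (∀ x ∈ F, f x ≠ 0) ∧
      ∀ x ∈ F, ∀ y ∈ F, f x ≤ f y + e x y ∧ e x y ≤ f x + f y
  · obtain ⟨F, f, h1, h2, h3, h4⟩ := hv
    obtain ⟨g, hg, hgf⟩ := exists_kat hD he F f h2 h3 h4
    obtain ⟨e', he', h5, h6⟩ := exists_step he hg
    refine ⟨e', he', h5, ?_⟩
    intro F' f' h1' h2' _ _ x hx
    have h7 : ((x, f' x) : ℕ × D) ∈ q := (h1' _).2 ⟨hx, rfl⟩
    obtain ⟨h8, h9⟩ := (h1 _).1 h7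
    rw [h6 x (h2' x hx), hgf x h8]
    exact h9.symm
  · obtain ⟨g, hg, -⟩ := exists_kat hD he ∅ (fun _ => 0) (by simp) (by simp) (by simp)
    obtain ⟨e', he', h5, h6⟩ := exists_step he hg
    exact ⟨e', he', h5, fun F f h1 h2 h3 h4 => absurd ⟨F, f, h1, h2, h3, h4⟩ hv⟩

end

/-- Row EUR. -/
theorem pf_EUR : T_EUR := by
  classical
  intro D _ _ _ hD
  have hfin : Finite D := DM.fin
  -- the requirements
  obtain ⟨R, hR⟩ : ∃ R : ℕ → Finset (ℕ × D), Surjective R := exists_surjective_nat _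
  have h0 : IsMOn 0 (fun _ _ => (0 : D)) :=
    ⟨fun x hx => absurd hx (Nat.not_lt_zero x), fun x hx => absurd hx (Nat.not_lt_zero x),
      fun x hx => absurd hx (Nat.not_lt_zero x)⟩
  let E : (j : ℕ) → {e : ℕ → ℕ → D // IsMOn j e} := fun j =>
    Nat.rec ⟨_, h0⟩ (fun j p =>
      ⟨Classical.choose (exists_req hD p.2 ((R (Nat.unpair j).1 : Finset (ℕ × D)) : Set (ℕ × D))),
        (Classical.choose_spec (exists_req hD p.2
          ((R (Nat.unpair j).1 : Finset (ℕ × D)) : Set (ℕ × D)))).1⟩) j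
  have hE1 : ∀ j, ∀ x < j, ∀ y < j, (E (j + 1)).1 x y = (E j).1 x y := fun j =>
    (Classical.choose_spec (exists_req hD (E j).2
      ((R (Nat.unpair j).1 : Finset (ℕ × D)) : Set (ℕ × D)))).2.1
  have hE2 : ∀ (j : ℕ) (F : Finset ℕ) (f : ℕ → D),
      (∀ p, p ∈ ((R (Nat.unpair j).1 : Finset (ℕ × D)) : Set (ℕ × D)) ↔
        p.1 ∈ F ∧ p.2 = f p.1) → (∀ x ∈ F, x < j) → (∀ x ∈ F, f x ≠ 0) →
      (∀ x ∈ F, ∀ y ∈ F, f x ≤ f y + (E j).1 x y ∧ (E j).1 x y ≤ f x + f y) →
      ∀ x ∈ F, (E (j + 1)).1 j x = f x := fun j =>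
    (Classical.choose_spec (exists_req hD (E j).2
      ((R (Nat.unpair j).1 : Finset (ℕ × D)) : Set (ℕ × D)))).2.2
  -- the limit
  have hlim : ∀ x y j, x < j → y < j → (E j).1 x y = (E (max x y + 1)).1 x y := by
    intro x y j hx hy
    obtain ⟨k, hk⟩ : ∃ k, j = max x y + 1 + k := ⟨j - (max x y + 1), by omega⟩
    subst hk
    clear hx hy
    induction k with
    | zero => rfl
    | succ k ih =>
      rw [← ih]
      exact hE1 (max x y + 1 + k) x (by omega) y (by omega)
  refine ⟨fun x y => (E (max x y + 1)).1 x y, ⟨⟨?_, ?_, ?_⟩, ⟨0⟩, ?_⟩⟩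
  · intro x y
    exact (E (max x y + 1)).2.eq x (by omega) y (by omega)
  · intro x y
    change (E (max x y + 1)).1 x y = (E (max y x + 1)).1 y x
    rw [max_comm y x]
    exact (E (max x y + 1)).2.sym x (by omega) y (by omega)
  · intro x y z
    change (E (max x z + 1)).1 x z ≤ (E (max x y + 1)).1 x y + (E (max y z + 1)).1 y z
    have hx : x < x + y + z + 1 := by omega
    have hy : y < x + y + z + 1 := by omega
    have hz : z < x + y + z + 1 := by omega
    rw [← hlim x z _ hx hz, ← hlim x y _ hx hy, ← hlim y z _ hy hz]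
    exact (E (x + y + z + 1)).2.tri x hx y hy z hz
  · intro F f hf0 hf
    obtain ⟨a, ha⟩ := hR (F.image fun x => (x, f x))
    set k := F.sup id + 1 with hk
    have hFk : ∀ x ∈ F, x < k := by
      intro x hx
      have h1 : x ≤ F.sup id := Finset.le_sup (f := id) hx
      omega
    set j := Nat.pair a k with hj
    have hkj : k ≤ j := Nat.right_le_pair a k
    have hFj : ∀ x ∈ F, x < j := fun x hx => (hFk x hx).trans_le hkj
    have hRj : R (Nat.unpair j).1 = F.image fun x => (x, f x) := by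
      rw [hj, Nat.unpair_pair]
      exact ha
    refine ⟨j, fun x hx => ?_⟩
    have h2 := hE2 j F f (fun p => ?_) hFj hf0 (fun x hx y hy => ?_) x hx
    · change (E (max j x + 1)).1 j x = f x
      rw [max_eq_left (hFj x hx).le]
      exact h2
    · rw [hRj]
      simp only [Finset.coe_image, Set.mem_image, Finset.mem_coe]
      constructor
      · rintro ⟨x, hx, rfl⟩
        exact ⟨hx, rfl⟩
      · rintro ⟨h3, h4⟩
        exact ⟨p.1, h3, Prod.ext rfl h4.symm⟩
    · rw [hlim x y j (hFj x hx) (hFj y hy)]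
      exact hf x hx y hy

end Pool.Agent.H75.CM
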