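import Pool.Agent.H60.CM.Basic

/-!
# Stable surfaces of constant mean curvature spanning a circle: row BAR

The barrier of the Hopf lemma.
-/

set_option autoImplicit false

open Set Function MeasureTheory Filter Topology
open scoped Manifold ContDiff Matrix
open Pool.Agent.H60.CM

namespace Pool.Agent.H75.CM

theorem ee_apply (i j : Fin 2) : (ee i) j = if j = i then (1 : ℝ) else 0 := by
  simp [ee]

theorem hasF_coord (o : E2) (k : Fin 2) (y : E2) :
    HasFDerivAt (fun z : E2 => z k - o k) (EuclideanSpace.proj k : E2 →L[ℝ] ℝ) y :=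
  ((EuclideanSpace.proj k : E2 →L[ℝ] ℝ).hasFDerivAt (x := y)).sub_const _

theorem proj_ee (k i : Fin 2) : (EuclideanSpace.proj k : E2 →L[ℝ] ℝ) (ee i) =
    if k = i then (1 : ℝ) else 0 := ee_apply i k

theorem diff_coord (o : E2) (k : Fin 2) (y : E2) :
    DifferentiableAt ℝ (fun z : E2 => z k - o k) y := (hasF_coord o k y).differentiableAt

theorem pd_coord (o : E2) (k : Fin 2) (y : E2) (i : Fin 2) :
    pd (fun z : E2 => z k - o k) y i = if k = i then (1 : ℝ) else 0 := by
  unfold pd
  rw [(hasF_coord o k y).fderiv, proj_ee]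

theorem df_mul {f g : E2 → ℝ} {y : E2} (hf : DifferentiableAt ℝ f y)
    (hg : DifferentiableAt ℝ g y) : DifferentiableAt ℝ (fun z => f z * g z) y := hf.mul hg

theorem df_add {f g : E2 → ℝ} {y : E2} (hf : DifferentiableAt ℝ f y)
    (hg : DifferentiableAt ℝ g y) : DifferentiableAt ℝ (fun z => f z + g z) y := hf.add hg

theorem pd_add {f g : E2 → ℝ} {y : E2} (hf : DifferentiableAt ℝ f y)
    (hg : DifferentiableAt ℝ g y) (i : Fin 2) :
    pd (fun z => f z + g z) y i = pd f y i + pd g y i := by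
  unfold pd
  rw [fderiv_fun_add hf hg]
  rfl

theorem pd_mul {f g : E2 → ℝ} {y : E2} (hf : DifferentiableAt ℝ f y)
    (hg : DifferentiableAt ℝ g y) (i : Fin 2) :
    pd (fun z => f z * g z) y i = f y * pd g y i + g y * pd f y i := by
  unfold pd
  rw [fderiv_fun_mul hf hg]
  rfl

theorem pd_const (c : ℝ) (y : E2) (i : Fin 2) : pd (fun _ : E2 => c) y i = 0 := by
  unfold pd
  simp

theorem pd_const_mul {f : E2 → ℝ} {y : E2} (c : ℝ) (hf : DifferentiableAt ℝ f y) (i : Fin 2) :
    pd (fun z => c * f z) y i = c * pd f y i := by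
  rw [pd_mul (differentiableAt_const c) hf, pd_const]
  ring

theorem pd_exp {f : E2 → ℝ} {y : E2} (hf : DifferentiableAt ℝ f y) (i : Fin 2) :
    pd (fun z => Real.exp (f z)) y i = Real.exp (f y) * pd f y i := by
  unfold pd
  rw [fderiv_exp hf]
  rfl

/-- the exponential function of the barrier -/
noncomputable def EE (α : ℝ) (o z : E2) : ℝ :=
  Real.exp (-α * ((z 0 - o 0) * (z 0 - o 0) + (z 1 - o 1) * (z 1 - o 1)))

theorem EE_eq (α : ℝ) (o : E2) :
    (fun z => Real.exp (-α * dist z o ^ 2)) = fun z => EE α o z := by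
  funext z
  unfold EE
  rw [EuclideanSpace.dist_eq, Real.sq_sqrt (Finset.sum_nonneg fun i _ => sq_nonneg _)]
  rw [Fin.sum_univ_two, Real.dist_eq, Real.dist_eq, sq_abs, sq_abs]
  congr 2
  ring

theorem diff_quad (o y : E2) : DifferentiableAt ℝ
    (fun z : E2 => (z 0 - o 0) * (z 0 - o 0) + (z 1 - o 1) * (z 1 - o 1)) y :=
  df_add (df_mul (diff_coord o 0 y) (diff_coord o 0 y))
    (df_mul (diff_coord o 1 y) (diff_coord o 1 y))

theorem diff_EE (α : ℝ) (o y : E2) : DifferentiableAt ℝ (fun z => EE α o z) y := by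
  unfold EE
  exact ((diff_quad o y).const_mul (-α)).exp

theorem pd_EE (α : ℝ) (o y : E2) (i : Fin 2) :
    pd (fun z => EE α o z) y i = (-2 * α) * ((y i - o i) * EE α o y) := by
  have h : (fun z => EE α o z) = fun z => Real.exp (-α *
    ((z 0 - o 0) * (z 0 - o 0) + (z 1 - o 1) * (z 1 - o 1))) := rfl
  rw [h, pd_exp ((diff_quad o y).const_mul (-α)), pd_const_mul _ (diff_quad o y),
    pd_add (df_mul (diff_coord o 0 y) (diff_coord o 0 y))
      (df_mul (diff_coord o 1 y) (diff_coord o 1 y)),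
    pd_mul (diff_coord o 0 y) (diff_coord o 0 y), pd_mul (diff_coord o 1 y) (diff_coord o 1 y),
    pd_coord, pd_coord]
  unfold EE
  fin_cases i <;> simp <;> ring

/-- the second derivatives of the exponential -/
theorem pd_xE (α : ℝ) (o y : E2) (i j : Fin 2) :
    pd (fun z => (-2 * α) * ((z i - o i) * EE α o z)) y j =
      (-2 * α) * ((if i = j then (1 : ℝ) else 0) - 2 * α * (y i - o i) * (y j - o j)) *
        EE α o y := by
  rw [pd_const_mul _ (df_mul (diff_coord o i y) (diff_EE α o y)),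
    pd_mul (diff_coord o i y) (diff_EE α o y), pd_EE, pd_coord]
  ring

theorem diff_xE (α : ℝ) (o y : E2) (i : Fin 2) :
    DifferentiableAt ℝ (fun z => (-2 * α) * ((z i - o i) * EE α o z)) y :=
  (df_mul (diff_coord o i y) (diff_EE α o y)).const_mul _

/-- the operator on the barrier -/
theorem Lab_EE {a b c : E2 → ℝ} {y : E2} (ha : DifferentiableAt ℝ a y)
    (hb : DifferentiableAt ℝ b y) (hc : DifferentiableAt ℝ c y) (α : ℝ) (o : E2) :
    Lab a b c (fun z => EE α o z) y = (2 * α * EE α o y) *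
      (2 * α * (a y * (y 0 - o 0) ^ 2 + 2 * b y * (y 0 - o 0) * (y 1 - o 1) +
        c y * (y 1 - o 1) ^ 2) -
      ((a y + c y) + ((pd a y 0 + pd b y 1) * (y 0 - o 0) +
        (pd b y 0 + pd c y 1) * (y 1 - o 1)))) := by
  unfold Lab
  have h0 : (fun z => a z * pd (fun z => EE α o z) z 0 + b z * pd (fun z => EE α o z) z 1) =
      fun z => a z * ((-2 * α) * ((z 0 - o 0) * EE α o z)) +
        b z * ((-2 * α) * ((z 1 - o 1) * EE α o z)) := by
    funext z
    rw [pd_EE, pd_EE]
  have h1 : (fun z => b z * pd (fun z => EE α o z) z 0 + c z * pd (fun z => EE α o z) z 1) =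
      fun z => b z * ((-2 * α) * ((z 0 - o 0) * EE α o z)) +
        c z * ((-2 * α) * ((z 1 - o 1) * EE α o z)) := by
    funext z
    rw [pd_EE, pd_EE]
  rw [h0, h1, pd_add (df_mul ha (diff_xE α o y 0)) (df_mul hb (diff_xE α o y 1)),
    pd_add (df_mul hb (diff_xE α o y 0)) (df_mul hc (diff_xE α o y 1)),
    pd_mul ha (diff_xE α o y 0), pd_mul hb (diff_xE α o y 1), pd_mul hb (diff_xE α o y 0),
    pd_mul hc (diff_xE α o y 1), pd_xE, pd_xE, pd_xE, pd_xE]
  simp only [if_true, Fin.zero_eq_one_iff, Fin.one_eq_zero_iff, OfNat.ofNat_ne_one, if_false]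
  ring

/-- a positive definite form -/
theorem quad_pos {a b c x y : ℝ} (ha : 0 < a) (hd : 0 < a * c - b ^ 2) (h : x ≠ 0 ∨ y ≠ 0) :
    0 < a * x ^ 2 + 2 * b * x * y + c * y ^ 2 := by
  have h1 : a * (a * x ^ 2 + 2 * b * x * y + c * y ^ 2) =
      (a * x + b * y) ^ 2 + (a * c - b ^ 2) * y ^ 2 := by ring
  have h2 : 0 < a * (a * x ^ 2 + 2 * b * x * y + c * y ^ 2) := by
    rw [h1]
    by_cases hy : y = 0
    · have hx : x ≠ 0 := by
        rcases h with h | h
        · exact h
        · exact absurd hy h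
      rw [hy]
      have : a * x + b * 0 ≠ 0 := by
        rw [mul_zero, add_zero]
        exact mul_ne_zero ha.ne' hx
      positivity
    · have : 0 < (a * c - b ^ 2) * y ^ 2 := by positivity
      positivity
  exact (mul_pos_iff_of_pos_left ha).1 h2

theorem pf_BAR : T_BAR := by
  intro O a b c hE o R hR hO
  -- the quotient is bounded on the annulus
  set K : Set E2 := {y | R / 2 ≤ dist y o ∧ dist y o ≤ R} with hK
  have hKO : K ⊆ O := fun y hy => hO hy.2
  have hKc : IsCompact K := by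
    have h1 : IsClosed {y : E2 | R / 2 ≤ dist y o} :=
      isClosed_le continuous_const (continuous_id.dist continuous_const)
    have h2 : K = Metric.closedBall o R ∩ {y : E2 | R / 2 ≤ dist y o} := by
      ext y
      constructor
      · exact fun h => ⟨h.2, h.1⟩
      · exact fun h => ⟨h.2, h.1⟩
    rw [h2]
    exact (isCompact_closedBall o R).inter_right h1
  have hq : ∀ y ∈ K, 0 < a y * (y 0 - o 0) ^ 2 + 2 * b y * (y 0 - o 0) * (y 1 - o 1) +
      c y * (y 1 - o 1) ^ 2 := by
    intro y hy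
    refine quad_pos (hE.pa y (hKO hy)) (hE.det y (hKO hy)) ?_
    by_contra hcon
    have hc0 : y 0 - o 0 = 0 := by
      by_contra h5
      exact hcon (Or.inl h5)
    have hc1 : y 1 - o 1 = 0 := by
      by_contra h5
      exact hcon (Or.inr h5)
    have h3 : y = o := by
      ext i
      fin_cases i
      · exact sub_eq_zero.1 hc0
      · exact sub_eq_zero.1 hc1
    have h4 := hy.1
    rw [h3, dist_self] at h4
    linarith
  have hpd : ∀ (f : E2 → ℝ), ContDiffOn ℝ ∞ f O → ∀ i, ContinuousOn (fun y => pd f y i) K := by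
    intro f hf i
    have h1 : ContinuousOn (fderiv ℝ f) O := hf.continuousOn_fderiv_of_isOpen hE.isOpen (by simp)
    exact (h1.mono hKO).clm_apply continuousOn_const
  have hco : ∀ i, ContinuousOn (fun y : E2 => y i - o i) K := fun i =>
    (Continuous.continuousOn (by fun_prop))
  have ca : ContinuousOn a K := hE.sa.continuousOn.mono hKO
  have cb : ContinuousOn b K := hE.sb.continuousOn.mono hKO
  have cc : ContinuousOn c K := hE.sc.continuousOn.mono hKO
  have hcont : ContinuousOn (fun y => ((a y + c y) + ((pd a y 0 + pd b y 1) * (y 0 - o 0) +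
        (pd b y 0 + pd c y 1) * (y 1 - o 1))) /
      (a y * (y 0 - o 0) ^ 2 + 2 * b y * (y 0 - o 0) * (y 1 - o 1) + c y * (y 1 - o 1) ^ 2)) K := by
    refine ContinuousOn.div ?_ ?_ fun y hy => (hq y hy).ne'
    · exact (ca.add cc).add ((((hpd a hE.sa 0).add (hpd b hE.sb 1)).mul (hco 0)).add
        (((hpd b hE.sb 0).add (hpd c hE.sc 1)).mul (hco 1)))
    · exact ((ca.mul ((hco 0).pow 2)).add (((continuousOn_const.mul cb).mul (hco 0)).mul
        (hco 1))).add (cc.mul ((hco 1).pow 2))
  obtain ⟨B, hB⟩ := hKc.bddAbove_image hcont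
  refine ⟨|B| + 1, by positivity, fun y hy1 hy2 => ?_⟩
  have hyK : y ∈ K := ⟨hy1, hy2⟩
  have hyO : O ∈ 𝓝 y := hE.isOpen.mem_nhds (hKO hyK)
  have da : DifferentiableAt ℝ a y := (hE.sa.contDiffAt hyO).differentiableAt (by simp)
  have db : DifferentiableAt ℝ b y := (hE.sb.contDiffAt hyO).differentiableAt (by simp)
  have dc : DifferentiableAt ℝ c y := (hE.sc.contDiffAt hyO).differentiableAt (by simp)
  rw [EE_eq, Lab_EE da db dc]
  have hpos : 0 < 2 * (|B| + 1) * EE (|B| + 1) o y := by
    have h1 : 0 < EE (|B| + 1) o y := Real.exp_pos _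
    positivity
  refine mul_pos hpos (sub_pos.2 ?_)
  have h1 := hB ⟨y, hyK, rfl⟩
  have h2 := hq y hyK
  have h3 := (div_le_iff₀ h2).1 h1
  refine lt_of_le_of_lt h3 (mul_lt_mul_of_pos_right ?_ h2)
  linarith [le_abs_self B, abs_nonneg B]

end Pool.Agent.H75.CM
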