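import Pool.Agent.H60.CM.Basic

/-!
# Stable surfaces of constant mean curvature spanning a circle: row CS1

In the first case the rotation function vanishes.
-/

set_option autoImplicit false

open Set Function MeasureTheory Filter Topology
open scoped Manifold ContDiff Matrix
open Pool.Agent.H60.CM

namespace Pool.Agent.H75.CM

/-- the odd Killing functions are linear in the parameters -/
theorem oddk_lin (Y : Sy) (s t c1 c2 : ℝ) (p : Y.S) :
    oddk Y s (t * c1) (t * c2) p = s * Y.u p + t * oddk Y 0 c1 c2 p := by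
  simp only [oddk, Dat.u, kf, e3, Matrix.vec3_dotProduct, cross_apply, Pi.add_apply, Pi.zero_apply,
    Matrix.cons_val_zero, Matrix.cons_val_one, Matrix.cons_val]
  ring

theorem oddk_cont (Y : Sy) (c0 c1 c2 : ℝ) : Continuous (oddk Y c0 c1 c2) :=
  Dat.Sm.cont Y.toDat (Y.toDat.smkf _ _)

/-- a number `a` with `a + t w ≤ 0` for all positive `t` is not positive -/
theorem le_zero_of_forall {a w : ℝ} (h : ∀ t : ℝ, 0 < t → a + t * w ≤ 0) : a ≤ 0 := by
  by_contra hc
  have ha : 0 < a := not_le.1 hc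
  have hw : 0 < |w| + 1 := by positivity
  have h1 := h (a / (2 * (|w| + 1))) (by positivity)
  have h2 : a / (2 * (|w| + 1)) * (|w| + 1) = a / 2 := by
    field_simp
  have h3 : a / (2 * (|w| + 1)) * w ≥ -(a / 2) := by
    have h4 : a / (2 * (|w| + 1)) * (-(|w| + 1)) ≤ a / (2 * (|w| + 1)) * w :=
      mul_le_mul_of_nonneg_left (by linarith [neg_abs_le w]) (by positivity)
    have h5 : a / (2 * (|w| + 1)) * (-(|w| + 1)) = -(a / 2) := by
      rw [mul_neg, h2]
    rw [h5] at h4
    exact h4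
  linarith

theorem pf_CS1 (h1 : T_LPP) (h2 : T_BSG) (h3 : T_BNZ) (h4 : T_DNI) (h5 : T_ODD) : T_CS1 := by
  intro Y hst P Q hPQ hN
  obtain ⟨c1, c2, hw, p0, hp0, hneg⟩ := h2 Y P Q hPQ hN
  -- the sign on the half
  have key : ∀ s t : ℝ, 0 < t → ∀ p ∈ Y.A ∩ Y.int, s * Y.u p + t * oddk Y 0 c1 c2 p ≤ 0 := by
    intro s t ht
    have hb : ∀ p ∈ Y.A ∩ Y.bd, oddk Y s (t * c1) (t * c2) p ≤ 0 := by
      intro p hp
      rw [oddk_lin, (h3 Y.toDat p hp.2).1, mul_zero, zero_add]
      exact mul_nonpos_of_nonneg_of_nonpos ht.le (hw p hp)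
    rcases h1 Y hst s (t * c1) (t * c2) hb with hpos | hle
    · exfalso
      have hf0 : oddk Y s (t * c1) (t * c2) p0 < 0 := by
        rw [oddk_lin, (h3 Y.toDat p0 hp0.2).1, mul_zero, zero_add]
        exact mul_neg_of_pos_of_neg ht hneg
      have hop : IsOpen ({p | oddk Y s (t * c1) (t * c2) p < 0} ∩ Y.A) :=
        (isOpen_lt (oddk_cont Y s (t * c1) (t * c2)) continuous_const).inter Y.half.isOpen
      obtain ⟨q, hq1, hq2⟩ := (h4 Y.toDat).inter_open_nonempty _ hop ⟨p0, hf0, hp0.1⟩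
      have h6 := hpos q ⟨hq1.2, hq2⟩
      have h7 : oddk Y s (t * c1) (t * c2) q < 0 := hq1.1
      linarith
    · intro p hp
      have h6 := hle p hp
      rw [oddk_lin] at h6
      exact h6
  have hA : ∀ p ∈ Y.A, Y.u p = 0 := by
    intro p hp
    rcases Y.toDat.int_or_bd p with hi | hb
    · have h6 : 1 * Y.u p ≤ 0 := le_zero_of_forall fun t ht => key 1 t ht p ⟨hp, hi⟩
      have h7 : (-1) * Y.u p ≤ 0 := le_zero_of_forall fun t ht => key (-1) t ht p ⟨hp, hi⟩
      linarith
    · exact (h3 Y.toDat p hb).1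
  have hodd : ∀ p, Y.u (Y.τ p) = -Y.u p := by
    intro p
    have h6 := h5 Y 1 (0 * 0) (0 * 0) p
    rw [oddk_lin, oddk_lin] at h6
    linarith
  intro p
  by_cases hfix : Y.τ p = p
  · have h6 := hodd p
    rw [hfix] at h6
    linarith
  · rcases (Y.half.cover p).1 hfix with h6 | h6
    · exact hA p h6
    · have h7 := hodd p
      rw [hA _ h6] at h7
      linarith

end Pool.Agent.H75.CM
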