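import Pool.Agent.H1.CM.Targets2
import Pool.Agent.H1.CM.SBasic
import Pool.Agent.H29.CMX.FFX

/-!
# Module CANF: pluricanonical forms of the special fibre
-/

open CategoryTheory AlgebraicGeometry Limits

namespace Pool.Agent.H1.CM

namespace CANF

/-- Regularity relative to a fixed generator. -/
theorem regAt_iff {k K : Type} [Field k] [Field K] [Algebra k K] (R : Subring K) (η : Forms k K)
    (hη : η ≠ 0) (g₀ : K) (hg₀ : g₀ ≠ 0) (h : IsGen k R η g₀) (n : ℕ) (f : K) :
    RegAt k R η n f ↔ f * (g₀⁻¹) ^ n ∈ R := by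
  constructor
  · rintro ⟨g, hg, h', hh', rfl⟩
    have h1 : g • η ∈ Submodule.span R {g₀ • η} := by
      have h0 : Submodule.span R {g₀ • η} = Submodule.span R {g • η} := by
        rw [show Submodule.span R {g₀ • η} = omegaSub k R from h,
          show Submodule.span R {g • η} = omegaSub k R from hg]
      rw [h0]
      exact Submodule.subset_span rfl
    obtain ⟨v, hv⟩ := Submodule.mem_span_singleton.1 h1
    have h2 : ((v : K) * g₀) • η = g • η := by
      rw [mul_smul]
      exact hv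
    have h3 : (v : K) * g₀ = g := smul_left_injective K hη h2
    rw [← h3]
    have h4 : h' * ((v : K) * g₀) ^ n * g₀⁻¹ ^ n = h' * (v : K) ^ n := by
      rw [mul_pow, inv_pow]
      field_simp
    rw [h4]
    exact R.mul_mem hh' (R.pow_mem v.2 n)
  · intro h'
    refine ⟨g₀, h, _, h', ?_⟩
    rw [inv_pow]
    field_simp

/-- A rational function which is regular at all points of an affine open subset is a section. -/
theorem inter_local {X : Scheme.{0}} [IsIntegral X] (U : X.Opens) (hU : IsAffineOpen U)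
    (hg : genericPoint X ∈ U) (x : X.functionField) :
    (∀ y : X, y ∈ U → x ∈ localSub X y) ↔
      ∃ b : Γ(X, U), (X.presheaf.germ U (genericPoint X) hg).hom b = x := by
  have hne : Nonempty U := ⟨⟨_, hg⟩⟩
  constructor
  · intro hx
    let ψ : Γ(X, U) →+* X.functionField := (X.presheaf.germ U (genericPoint X) hg).hom
    let I : Ideal Γ(X, U) :=
      { carrier := {d | ∃ b, ψ d * x = ψ b}
        add_mem' := by
          rintro a a' ⟨b, hb⟩ ⟨b', hb'⟩
          exact ⟨b + b', by rw [map_add, map_add, add_mul, hb, hb']⟩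
        zero_mem' := ⟨0, by simp⟩
        smul_mem' := by
          rintro c a ⟨b, hb⟩
          exact ⟨c * b, by rw [smul_eq_mul, map_mul, map_mul, mul_assoc, hb]⟩ }
    have h1 : (1 : Γ(X, U)) ∈ I := by
      rw [hU.mem_ideal_iff]
      intro y hy
      obtain ⟨z, hz⟩ := hx y hy
      let _ := X.presheaf.algebra_section_stalk ⟨y, hy⟩
      have hloc : IsLocalization.AtPrime (X.presheaf.stalk y) (hU.primeIdealOf ⟨y, hy⟩).asIdeal :=
        hU.isLocalization_stalk ⟨y, hy⟩
      obtain ⟨⟨b, d⟩, hbd⟩ := IsLocalization.surj (hU.primeIdealOf ⟨y, hy⟩).asIdeal.primeCompl z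
      have hu := IsLocalization.map_units (M := (hU.primeIdealOf ⟨y, hy⟩).asIdeal.primeCompl)
        (X.presheaf.stalk y) d
      have hdI : (d : Γ(X, U)) ∈ I := by
        refine ⟨b, ?_⟩
        have h2 := congrArg (algebraMap (X.presheaf.stalk y) X.functionField) hbd
        rw [map_mul] at h2
        have h3 : ∀ c : Γ(X, U), algebraMap (X.presheaf.stalk y) X.functionField
            (algebraMap Γ(X, U) (X.presheaf.stalk y) c) = ψ c := by
          intro c
          exact Scheme.algebraMap_germ_eq_germToFunctionField X hy c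
        rw [h3, h3, hz, mul_comm] at h2
        exact h2
      have h4 := Ideal.mem_map_of_mem (X.presheaf.germ U y hy).hom hdI
      have h5 := Ideal.eq_top_of_isUnit_mem _ h4 hu
      rw [h5]
      exact Submodule.mem_top
    obtain ⟨b, hb⟩ := h1
    rw [map_one, one_mul] at hb
    exact ⟨b, hb.symm⟩
  · rintro ⟨b, rfl⟩ y hy
    exact ⟨(X.presheaf.germ U y hy).hom b, Scheme.algebraMap_germ_eq_germToFunctionField X hy b⟩

/-- Sections over a chart inside the function field. -/
theorem sec_iff {k : Type} [Field k] {X₀ : Scheme.{0}} (s₀ : X₀ ⟶ Spec (CommRingCat.of k)) {D : Data k}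
    (S₀ : StdOver s₀ D) [IsIntegral X₀] (h : genericPoint X₀ ∈ S₀.V Finset.univ) (r : Fin 3)
    (hr : genericPoint X₀ ∈ S₀.V {r}) (x : X₀.functionField) :
    (∃ b : Γ(X₀, S₀.V {r}), (X₀.presheaf.germ (S₀.V {r}) (genericPoint X₀) hr).hom b = x) ↔
      InSpan (constants s₀) (S₀.qK h).mon (reg {r}) x := by
  have hne : ({r} : Finset (Fin 3)).Nonempty := Finset.singleton_nonempty r
  have hle := S₀.le {r} hne
  set ψ : Γ(X₀, S₀.V Finset.univ) →+* X₀.functionField :=
    (X₀.presheaf.germ (S₀.V Finset.univ) (genericPoint X₀) h).hom with hψ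
  have hψi : Function.Injective ψ := germ_injective_of_isIntegral X₀ (genericPoint X₀) h
  have hc : ∀ a : k, ψ (scal s₀ (S₀.V Finset.univ) a) = constants s₀ ((RingHom.id k) a) := fun a =>
    FFX.scal_germ s₀ _ h a
  have hcomb : ∀ g : Idx →₀ k, comb (constants s₀) (S₀.qK h).mon g
      = ψ (comb (scal s₀ (S₀.V Finset.univ)) S₀.q.mon g) := by
    intro g
    rw [comb_map _ (constants s₀) (RingHom.id k) ψ hc]
    have h1 : (S₀.qK h).mon = fun s => ψ (S₀.q.mon s) := by
      funext s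
      exact Quad.map_mon ψ S₀.q s
    rw [h1]
    congr 1
    ext s
    simp
  have hres : ∀ b : Γ(X₀, S₀.V {r}), (X₀.presheaf.germ (S₀.V {r}) (genericPoint X₀) hr).hom b
      = ψ (rs X₀ hle b) := by
    intro b
    exact (X₀.presheaf.germ_res_apply (homOfLE hle) (genericPoint X₀) h b).symm
  constructor
  · rintro ⟨b, rfl⟩
    have h1 : rs X₀ hle b ∈ BX X₀ S₀.V {r} := (mem_BX S₀.V {r} hle _).2 ⟨b, rfl⟩
    obtain ⟨g, hg, hgc⟩ := (S₀.frame.mem {r} hne _).1 h1
    exact ⟨g, hg, by rw [hres, hgc, hcomb]⟩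
  · rintro ⟨g, hg, rfl⟩
    have h1 : comb (scal s₀ (S₀.V Finset.univ)) S₀.q.mon g ∈ BX X₀ S₀.V {r} :=
      (S₀.frame.mem {r} hne _).2 ⟨g, hg, rfl⟩
    obtain ⟨b, hb⟩ := (mem_BX S₀.V {r} hle _).1 h1
    exact ⟨b, by rw [hres, hb, hcomb]⟩

/-- Intersection of spans. -/
theorem inSpan_inter {k K : Type} [Field k] [Field K] {j : k →+* K} {q : Quad K}
    (hi : Function.Injective (comb j q.mon)) {R R' : Set Idx} {c : K}
    (h : InSpan j q.mon R c) (h' : InSpan j q.mon R' c) : InSpan j q.mon (R ∩ R') c := by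
  obtain ⟨g, hg, rfl⟩ := h
  obtain ⟨g', hg', he⟩ := h'
  have h1 : g = g' := hi he
  subst h1
  exact ⟨g, fun s hs => ⟨hg s hs, hg' s hs⟩, rfl⟩

/-- Canonical forms by charts. -/
theorem wk_iff {k K : Type} [Field k] [Field K] {j : k →+* K} {q : Quad K}
    (hi : Function.Injective (comb j q.mon)) (n : ℕ) (f : K) :
    f ∈ WK j q (4 * n) ↔ ∀ r : Fin 3, InSpan j q.mon (reg {r}) (f * (q.gen r)⁻¹ ^ n) := by
  have e0 : f * (q.gen 0)⁻¹ ^ n = ((q.X ^ (-(4 * n : ℤ)) : Kˣ) : K) * ((q.Y ^ (0 : ℤ) : Kˣ) : K) * f := by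
    have : q.gen 0 = (q.X : K) ^ 4 := rfl
    rw [this, zpow_zero, Units.val_one, mul_one, mul_comm, ← inv_pow, ← pow_mul, zpow_neg,
      ← Units.val_inv_eq_inv_val]
    congr 1
  have e1 : f * (q.gen 1)⁻¹ ^ n = ((q.X ^ (0 : ℤ) : Kˣ) : K) * ((q.Y ^ (-(4 * n : ℤ)) : Kˣ) : K) * f := by
    have : q.gen 1 = (q.Y : K) ^ 4 := rfl
    rw [this, zpow_zero, Units.val_one, one_mul, mul_comm, ← inv_pow, ← pow_mul, zpow_neg,
      ← Units.val_inv_eq_inv_val]
    congr 1
  have e2 : f * (q.gen 2)⁻¹ ^ n = f := by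
    have : q.gen 2 = 1 := rfl
    rw [this]
    simp
  constructor
  · intro h r
    have h0 : InSpan j q.mon (regd (4 * n) ∅) f := h
    fin_cases r
    · show InSpan j q.mon (reg {0}) (f * (q.gen 0)⁻¹ ^ n)
      rw [e0]
      refine InSpan.shift _ _ (fun s hs => ?_) h0
      intro r hr
      have a0 := hs 0 (by simp)
      have a1 := hs 1 (by simp)
      have a2 := hs 2 (by simp)
      fin_cases r <;> simp [expo] at * <;> omega
    · show InSpan j q.mon (reg {1}) (f * (q.gen 1)⁻¹ ^ n)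
      rw [e1]
      refine InSpan.shift _ _ (fun s hs => ?_) h0
      intro r hr
      have a0 := hs 0 (by simp)
      have a1 := hs 1 (by simp)
      have a2 := hs 2 (by simp)
      fin_cases r <;> simp [expo] at * <;> omega
    · show InSpan j q.mon (reg {2}) (f * (q.gen 2)⁻¹ ^ n)
      rw [e2]
      refine InSpan.mono (fun s hs => ?_) h0
      intro r hr
      have a0 := hs 0 (by simp)
      have a1 := hs 1 (by simp)
      fin_cases r <;> simp [expo] at * <;> omega
  · intro h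
    have h0 := h 0
    have h1 := h 1
    have h2 := h 2
    rw [e0] at h0
    rw [e1] at h1
    rw [e2] at h2
    have h0' := InSpan.shift (R' := {s : Idx | ((s.1 - 4 * n, s.2.1, s.2.2) : Idx) ∈ reg {0}})
      (4 * n : ℤ) 0 (fun s hs => by simpa using hs) h0
    have h1' := InSpan.shift (R' := {s : Idx | ((s.1, s.2.1 - 4 * n, s.2.2) : Idx) ∈ reg {1}})
      0 (4 * n : ℤ) (fun s hs => by simpa using hs) h1
    have f0 : ((q.X ^ (4 * n : ℤ) : Kˣ) : K) * ((q.Y ^ (0 : ℤ) : Kˣ) : K) *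
        (((q.X ^ (-(4 * n : ℤ)) : Kˣ) : K) * ((q.Y ^ (0 : ℤ) : Kˣ) : K) * f) = f := by
      rw [zpow_neg, zpow_zero, Units.val_one, mul_one, mul_one, ← mul_assoc, Units.mul_inv, one_mul]
    have f1 : ((q.X ^ (0 : ℤ) : Kˣ) : K) * ((q.Y ^ (4 * n : ℤ) : Kˣ) : K) *
        (((q.X ^ (0 : ℤ) : Kˣ) : K) * ((q.Y ^ (-(4 * n : ℤ)) : Kˣ) : K) * f) = f := by
      rw [zpow_neg, zpow_zero, Units.val_one, one_mul, one_mul, ← mul_assoc, Units.mul_inv, one_mul]
    rw [f0] at h0'
    rw [f1] at h1'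
    refine InSpan.mono (fun s hs => ?_) (inSpan_inter hi h2 h0')
    intro r _
    have a0 := hs.1 0 (by simp)
    have a1 := hs.1 1 (by simp)
    have a2 := hs.2 2 (by simp)
    fin_cases r <;> simp [expo] at * <;> omega

end CANF

theorem canf (h1 : T_FFX) : T_CANF := by
  intro k _ hk X₀ s₀ S₀ _ h
  let _ := (constants s₀).toAlgebra
  intro η hη hgen n f
  obtain ⟨h', hF⟩ := h1 hk s₀ S₀
  have hnz : ∀ r, (S₀.qK h).gen r ≠ 0 := by
    intro r
    fin_cases r
    · exact pow_ne_zero _ (S₀.qK h).X.ne_zero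
    · exact pow_ne_zero _ (S₀.qK h).Y.ne_zero
    · exact one_ne_zero
  have hgr : ∀ r : Fin 3, genericPoint X₀ ∈ S₀.V {r} := fun r =>
    S₀.le {r} (Finset.singleton_nonempty r) h
  rw [CANF.wk_iff hF.inj]
  constructor
  · intro H r
    rw [← CANF.sec_iff s₀ S₀ h r (hgr r), ← CANF.inter_local (S₀.V {r})
      (S₀.affine {r} (Finset.singleton_nonempty r)) (hgr r)]
    intro y hy
    exact (CANF.regAt_iff (localSub X₀ y) η hη _ (hnz r) (hgen r y hy) n f).1 (H y)
  · intro H y
    have hy : y ∈ (⨆ r : Fin 3, S₀.V {r} : X₀.Opens) := by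
      rw [S₀.cover]
      trivial
    obtain ⟨r, hr⟩ := TopologicalSpace.Opens.mem_iSup.1 hy
    have h3 := H r
    rw [← CANF.sec_iff s₀ S₀ h r (hgr r), ← CANF.inter_local (S₀.V {r})
      (S₀.affine {r} (Finset.singleton_nonempty r)) (hgr r)] at h3
    exact (CANF.regAt_iff (localSub X₀ y) η hη _ (hnz r) (hgen r y hr) n f).2 (h3 y hr)

end Pool.Agent.H1.CM
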